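import Pool.Agent.H20.ER3.Lib

/-!
# MP_816b90_co: row C0, there is a vertex of `R` on the prism
-/

set_option autoImplicit false

namespace Pool.Agent.H81.ER3

open Pool.Agent.H48.ER Pool.Agent.H52.ER2 Pool.Agent.H66.ER2 Pool.Agent.H20.ER3

theorem pf_C0 (hPB : U_PB) : U_C0 := by
  intro V H R n g hN hp ho
  by_contra hcon
  have hin : ∀ i k, k ≤ n i → g i k ∈ {x : V ⊕ Set V | ∀ r ∈ R, x ≠ Sum.inl r} := by
    intro i k hk r hr he
    exact hcon ⟨i, k, hk, r, hr, he⟩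
  have hp' : PI (OC H R) n g := by
    refine ⟨hp.pos, hp.inj, ?_⟩
    intro i j k l hk hl
    rw [← hp.adj i j k l hk hl]
    exact ⟨fun h => h.2.2, fun h => ⟨hin i k hk, hin j l hl, h⟩⟩
  exact hN _ _ _ _ (hPB _ _ n g hp') ho

end Pool.Agent.H81.ER3
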